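import Pool.Agent.Helper2.EL.Defs
import Pool.Agent.Helper14.GH.HW2

/-!
Project MON (MP_b8862a_ag): definitions. Monodromy groups of variations of Hodge structure.
-/

set_option linter.unusedSectionVars false

open Matrix

namespace MH

variable {n : Type*} [Fintype n] [DecidableEq n]

/-- a group of rational matrices, in the complex matrices -/
noncomputable def mapC (D : Subgroup (GL n ℚ)) : Subgroup (GL n ℂ) := D.map (Matrix.GeneralLinearGroup.map (algebraMap ℚ ℂ))

/-- `D` is a group of rational isometries of `Q` that contains an element of infinite order, and the tensors fixed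
by subgroups of finite index of `D` are stable under the Hodge cocharacter. -/
structure IsMon (Q : Matrix n n ℚ) (S : Finset ℤ) (P : ℤ → Matrix n n ℂ) (D : Subgroup (GL n ℚ)) : Prop where
  isom : ∀ g ∈ D, (g : Matrix n n ℚ)ᵀ * Q * (g : Matrix n n ℚ) = Q
  inf : ∃ g ∈ D, ∀ N : ℕ, 0 < N → g ^ N ≠ 1
  fixed : ∀ a b t, IsTateTensor (mapC D) a b t → ∀ z : ℂ, z ≠ 0 →
    IsTateTensor (mapC D) a b (actF (slot a b (cochar S P z) (cochar S P z⁻¹)) t)

end MH
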