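import Pool.Agent.Helper2.MON.Use
import Pool.Agent.Helper56.EL.Lie

/-!
Project MON-W (MP_b8862a_ag), first part: the tensor Lie algebra of a monodromy group and the semi-invariants.
-/

set_option linter.unusedSectionVars false

open Matrix

namespace MH

variable {n : Type*} [Fintype n] [DecidableEq n]
variable {w : ℤ} {Q : Matrix n n ℚ} {S : Finset ℤ} {P : ℤ → Matrix n n ℂ} {D : Subgroup (GL n ℚ)}

/-- the adjoint for the Hodge-Riemann form -/
noncomputable def dg (w : ℤ) (Q : Matrix n n ℚ) (S : Finset ℤ) (P : ℤ → Matrix n n ℂ) (Bi X : Matrix n n ℂ) :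
    Matrix n n ℂ := (Bi * Biᴴ) * Xᴴ * Mw w Q S P

/-- A subgroup of finite index of `D` acts on the semi-invariants by scalars. -/
def SemiD (S : Finset ℤ) (P : ℤ → Matrix n n ℂ) (D : Subgroup (GL n ℚ)) : Prop :=
  ∃ D' : Subgroup (GL n ℚ), D' ≤ D ∧ D'.relIndex D ≠ 0 ∧ ∀ g ∈ D', ∀ T : Matrix n n ℂ, SI S P T →
    ∃ c : ℂ, toC (g : Matrix n n ℚ) * T = c • (T * toC (g : Matrix n n ℚ))

theorem relIndex_mapC {D' : Subgroup (GL n ℚ)} (h : D'.relIndex D ≠ 0) : (mapC D').relIndex (mapC D) ≠ 0 := by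
  unfold mapC
  rw [Subgroup.relIndex_map_map_of_injective]
  · exact h
  · intro g g' hg
    apply Units.ext
    ext i j
    have h1 := congrArg (fun x : GL n ℂ => (x : Matrix n n ℂ) i j) hg
    simp only [Matrix.GeneralLinearGroup.map_apply] at h1
    exact (algebraMap ℚ ℂ).injective h1

section basis

variable {B Bi : Matrix n n ℂ} (h1 : B * Bi = 1) (h2 : Bi * B = 1) (hM : Mw w Q S P = Bᴴ * B)
include h1 h2 hM

theorem dg_mul (x y : Matrix n n ℂ) : dg w Q S P Bi (x * y) = dg w Q S P Bi y * dg w Q S P Bi x :=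
  IsHW.st_mul h1 h2 hM x y

theorem dg_pos {T : Matrix n n ℂ} (hT : T ≠ 0) : (T * dg w Q S P Bi T).trace ≠ 0 := IsHW.st_pos h1 h2 hM hT

theorem dg_eq (x : Matrix n n ℂ) : dg w Q S P Bi x = cj Bi B (cj B Bi x)ᴴ := by
  unfold dg cj
  rw [hM, Matrix.conjTranspose_mul, Matrix.conjTranspose_mul]
  simp only [mul_assoc]

theorem dg_dg (x : Matrix n n ℂ) : dg w Q S P Bi (dg w Q S P Bi x) = x := by
  rw [dg_eq h1 h2 hM, dg_eq h1 h2 hM, cj_cj h1, Matrix.conjTranspose_conjTranspose, cj_cj h2]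

theorem dg_trace (x : Matrix n n ℂ) : (dg w Q S P Bi x).trace = starRingEnd ℂ x.trace := by
  have e1 : ∀ A C X : Matrix n n ℂ, C * A = 1 → (cj A C X).trace = X.trace := by
    intro A C X h
    unfold cj
    rw [Matrix.trace_mul_comm, ← mul_assoc, h, one_mul]
  rw [dg_eq h1 h2 hM, e1 Bi B _ h1, Matrix.trace_conjTranspose, e1 B Bi _ h2]
  rfl

theorem dg_sub (x y : Matrix n n ℂ) : dg w Q S P Bi (x - y) = dg w Q S P Bi x - dg w Q S P Bi y := by
  unfold dg
  rw [Matrix.conjTranspose_sub, mul_sub, sub_mul]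

end basis

namespace IsHW

variable (H : IsHW w Q S P)
include H

theorem SI_EC {x : Matrix n n ℂ} (hx : x ∈ EC P) : SI S P x := fun g hg => ⟨1, by rw [H.MT_EC hg hx, one_smul]⟩

variable {B Bi : Matrix n n ℂ} (h1 : B * Bi = 1) (h2 : Bi * B = 1) (hM : Mw w Q S P = Bᴴ * B)
include h1 h2 hM

/-- the adjoint preserves rational substructures of the Lie algebra of isometries -/
theorem dg_sub_mem {M : Submodule ℂ (Matrix n n ℂ)} (m1 : ∀ σ : ℂ ≃+* ℂ, ∀ X ∈ M, X.map σ ∈ M)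
    (m2 : ∀ z : ℂ, z ≠ 0 → ∀ X ∈ M, cochar S P z * X * cochar S P z⁻¹ ∈ M)
    (m3 : ∀ X ∈ M, Xᵀ * toC Q + toC Q * X = 0) {X : Matrix n n ℂ} (hX : X ∈ M) : dg w Q S P Bi X ∈ M := by
  obtain ⟨κ, hκ⟩ := exists_cc
  have hXc : X.map (starRingEnd ℂ) ∈ M := by
    have e1 : X.map (starRingEnd ℂ) = X.map κ := by
      ext i j
      rw [Matrix.map_apply, Matrix.map_apply, hκ]
    rw [e1]
    exact m1 κ X hX
  have hXt : Xᴴ = (X.map (starRingEnd ℂ))ᵀ := rfl
  unfold dg
  rw [hXt]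
  generalize X.map (starRingEnd ℂ) = Z at hXc
  have e3 : Zᵀ * toC Q = -(toC Q * Z) := eq_neg_of_add_eq_zero_left (m3 Z hXc)
  have e4 : Bi * Biᴴ * Zᵀ * Mw w Q S P = -(C0 S P * Z * C0 S P) := by
    unfold Mw
    rw [mul_smul_comm]
    calc Complex.I ^ w • (Bi * Biᴴ * Zᵀ * (toC Q * C0 S P))
        = Complex.I ^ w • ((Bi * Biᴴ) * (Zᵀ * toC Q) * C0 S P) := by simp only [mul_assoc]
      _ = Complex.I ^ w • -(((Bi * Biᴴ) * toC Q) * Z * C0 S P) := by
          rw [e3, mul_neg, neg_mul]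
          simp only [mul_assoc]
      _ = _ := by
          rw [H.Mi_Q h1 h2 hM, smul_mul_assoc, smul_mul_assoc, ← smul_neg, smul_smul,
            mul_inv_cancel₀ (I_zpow_ne w), one_smul]
  rw [e4]
  have e5 := m2 (-1) (by norm_num) Z hXc
  have e6 : cochar S P (-1) = C0 S P := rfl
  have e7 : cochar S P (-1)⁻¹ = C0 S P := by
    unfold cochar C0
    norm_num
  rw [e6, e7] at e5
  exact M.neg_mem e5

/-- the space and its orthogonal complement for the trace form -/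
theorem compl_sub {M : Submodule ℂ (Matrix n n ℂ)} (m1 : ∀ σ : ℂ ≃+* ℂ, ∀ X ∈ M, X.map σ ∈ M)
    (m2 : ∀ z : ℂ, z ≠ 0 → ∀ X ∈ M, cochar S P z * X * cochar S P z⁻¹ ∈ M)
    (m3 : ∀ X ∈ M, Xᵀ * toC Q + toC Q * X = 0) : IsCompl M ((tr38 n).orthogonal M) := by
  have hnd : ((tr38 n).restrict M).Nondegenerate := by
    have hr : ((tr38 n).restrict M).IsRefl := fun x y h => tr38_refl _ _ h
    refine (LinearMap.IsRefl.nondegenerate_iff_separatingLeft hr).2 ?_
    intro x hx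
    by_contra hx0
    have hx1 : (x : Matrix n n ℂ) ≠ 0 := fun h => hx0 (Subtype.ext h)
    exact st_pos h1 h2 hM hx1 (hx ⟨_, H.dg_sub_mem h1 h2 hM m1 m2 m3 x.2⟩)
  exact LinearMap.BilinForm.isCompl_orthogonal_of_restrict_nondegenerate tr38_refl hnd

/-- the adjoint of a semi-invariant -/
theorem SI_dg {T : Matrix n n ℂ} (hT : SI S P T) : SI S P (dg w Q S P Bi T) := by
  refine H.SI_iff.2 fun σ => ?_
  obtain ⟨c, hc⟩ := H.SI_iff.1 hT σ
  refine ⟨-c, ?_⟩
  rw [neg_smul]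
  exact H.SIh_adj h1 h2 hM (H.SI_iff.1 hT) σ hc

theorem EC_dg {x : Matrix n n ℂ} (hx : x ∈ EC P) : dg w Q S P Bi x ∈ EC P := by
  refine H.descent fun σ => ?_
  have hT := H.SI_iff.1 (H.SI_EC hx)
  have h3 := H.SIh_adj h1 h2 hM hT σ (c := 0) (by
    rw [zero_smul, EC_hwσ hx σ, sub_self])
  rw [zero_smul, neg_zero, sub_eq_zero] at h3
  exact h3.symm

/-- the elements of the Lie algebra of a monodromy group act on the lines of the semi-invariants -/
theorem LG_semi (hD : SemiD S P D) {X T : Matrix n n ℂ} (hX : X ∈ LG (mapC D)) (hT : SI S P T) :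
    ∃ c : ℂ, X * T - T * X = c • T := by
  by_cases hT0 : T = 0
  · exact ⟨0, by rw [hT0]; simp⟩
  obtain ⟨D', d1, d2, d3⟩ := hD
  set T' := dg w Q S P Bi T with hT'
  have hTT := dg_pos h1 h2 hM hT0
  have hT1 : T' ≠ 0 := by
    intro h0
    apply hTT
    rw [← hT', h0, mul_zero, Matrix.trace_zero]
  have hS' : SI S P T' := H.SI_dg h1 h2 hM hT
  have hk : IsTateTensor (mapC D) 2 2 (t22 T T') := by
    refine ⟨mapC D', Subgroup.map_mono d1, relIndex_mapC d2, fun g hg => ?_⟩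
    obtain ⟨γ, hγ, rfl⟩ := Subgroup.mem_map.mp hg
    set g := Matrix.GeneralLinearGroup.map (algebraMap ℚ ℂ) γ with hgdef
    have hg0 : (g : Matrix n n ℂ) = toC (γ : Matrix n n ℚ) := rfl
    have g1 : (g : Matrix n n ℂ) * ((g⁻¹ : GL n ℂ) : Matrix n n ℂ) = 1 := by
      rw [← Units.val_mul, mul_inv_cancel, Units.val_one]
    obtain ⟨c, hc⟩ := d3 γ hγ T hT
    obtain ⟨c', hc'⟩ := d3 γ hγ T' hS'
    rw [← hg0] at hc hc'
    have e1 : (g : Matrix n n ℂ) * T * ((g⁻¹ : GL n ℂ) : Matrix n n ℂ) = c • T := by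
      rw [hc, smul_mul_assoc, mul_assoc, g1, mul_one]
    have e2 : (g : Matrix n n ℂ) * T' * ((g⁻¹ : GL n ℂ) : Matrix n n ℂ) = c' • T' := by
      rw [hc', smul_mul_assoc, mul_assoc, g1, mul_one]
    have e3 : c * c' = 1 := by
      have e4 : (g : Matrix n n ℂ) * (T * T') * ((g⁻¹ : GL n ℂ) : Matrix n n ℂ) = (c * c') • (T * T') := by
        rw [← mul_assoc, hc, smul_mul_assoc, smul_mul_assoc, mul_assoc T, hc', mul_smul_comm, smul_mul_assoc, smul_smul,
          ← mul_assoc T, mul_assoc, g1, mul_one]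
      have e5 := congrArg Matrix.trace e4
      rw [Matrix.trace_mul_comm, ← mul_assoc, ← Units.val_mul, inv_mul_cancel, Units.val_one, one_mul,
        Matrix.trace_smul, smul_eq_mul] at e5
      exact (mul_right_cancel₀ hTT (by rw [one_mul]; exact e5)).symm
    rw [slot22, e1, e2]
    funext i
    simp only [t22, Matrix.smul_apply, smul_eq_mul]
    linear_combination (T (i (Sum.inl 0)) (i (Sum.inr 0)) * T' (i (Sum.inl 1)) (i (Sum.inr 1))) * e3
  have hk2 := hX 2 2 _ hk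
  rw [dL_t22] at hk2
  have e1 : t22 (X * T - T * X) T' = t22 T (-(X * T' - T' * X)) := by
    funext i
    have h5 := congrFun hk2 i
    simp only [t22, Pi.add_apply, Pi.zero_apply, Matrix.neg_apply] at h5 ⊢
    linear_combination h5
  exact t22_cancel e1 hT1

/-- they commute with the endomorphisms -/
theorem LG_EC (hD : SemiD S P D) {X x : Matrix n n ℂ} (hX : X ∈ LG (mapC D)) (hx : x ∈ EC P) : X * x = x * X := by
  obtain ⟨c, hc⟩ := H.LG_semi h1 h2 hM hD hX (H.SI_EC hx)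
  have hone : (1 : Matrix n n ℂ) ∈ EC P := by
    refine H.descent fun σ => ?_
    rw [one_mul, mul_one]
  obtain ⟨c', hc'⟩ := H.LG_semi h1 h2 hM hD hX (H.SI_EC ((EC P).add_mem hx hone))
  have e1 : c • x = c' • (x + 1) := by
    rw [← hc, ← hc', mul_add, add_mul, mul_one, one_mul]
    abel
  by_cases hcc : c = c'
  · rw [hcc, smul_add, left_eq_add] at e1
    by_cases h0 : c' = 0
    · rw [hcc, h0, zero_smul, sub_eq_zero] at hc
      exact hc
    · have e2 : (1 : Matrix n n ℂ) = 0 := by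
        rcases smul_eq_zero.1 e1 with h | h
        · exact absurd h h0
        · exact h
      rw [← mul_one X, e2, mul_zero, zero_mul, mul_zero]
  · have e2 : x = (c' / (c - c')) • (1 : Matrix n n ℂ) := by
      have h3 : (c - c') • x = c' • (1 : Matrix n n ℂ) := by
        rw [sub_smul, e1, smul_add, add_sub_cancel_left]
      have h4 : c - c' ≠ 0 := sub_ne_zero.2 hcc
      rw [div_eq_inv_mul, ← smul_smul, ← h3, smul_smul, inv_mul_cancel₀ h4, one_smul]
    rw [e2, mul_smul_comm, smul_mul_assoc, mul_one, one_mul]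

end IsHW

end MH
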