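import Pool.Agent.Helper99.MON.Lss
import Pool.Agent.Helper34.MON.Lun
import Pool.Agent.Helper38.MON.Sub
import Pool.Agent.Helper33.MON.Simp
import Pool.Agent.Helper14.GH.HW5

/-!
Project MON (MP_b8862a_ag): the tensor Lie algebra of a monodromy group is a nonzero rational Hodge substructure of
the Lie algebra of isometries.
-/

set_option linter.unusedSectionVars false

open Matrix

namespace MH

variable {n : Type*} [Fintype n] [DecidableEq n]

theorem tate_mono {Γ Δ : Subgroup (GL n ℂ)} (h : Δ ≤ Γ) {a b : ℕ} {t : (Fin a ⊕ Fin b → n) → ℂ}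
    (ht : IsTateTensor Γ a b t) : IsTateTensor Δ a b t := by
  obtain ⟨Γ', h1, h2, h3⟩ := ht
  refine ⟨Γ' ⊓ Δ, inf_le_right, ?_, fun g hg => h3 g hg.1⟩
  rw [Subgroup.inf_relIndex_right]
  exact fun h4 => h2 (Subgroup.relIndex_eq_zero_of_le_right h h4)

theorem LG_mono {Γ Δ : Subgroup (GL n ℂ)} (h : Δ ≤ Γ) {X : Matrix n n ℂ} (hX : X ∈ LG Δ) : X ∈ LG Γ :=
  fun a b t ht => hX a b t (tate_mono h ht)

theorem map_pow_ne {g : GL n ℚ} (hg : ∀ N : ℕ, 0 < N → g ^ N ≠ 1) (N : ℕ) (hN : 0 < N) :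
    (Matrix.GeneralLinearGroup.map (algebraMap ℚ ℂ) g) ^ N ≠ 1 := by
  intro h
  apply hg N hN
  rw [← map_pow] at h
  apply Units.ext
  ext i j
  have h1 := congrArg (fun x : GL n ℂ => (x : Matrix n n ℂ) i j) h
  simp only [Matrix.GeneralLinearGroup.map_apply, Units.val_one] at h1 ⊢
  have h2 : algebraMap ℚ ℂ (((g ^ N : GL n ℚ) : Matrix n n ℚ) i j) = algebraMap ℚ ℂ ((1 : Matrix n n ℚ) i j) := by
    rw [h1, Matrix.one_apply, Matrix.one_apply]
    split_ifs <;> simp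
  exact (algebraMap ℚ ℂ).injective h2

section mon

variable {Q : Matrix n n ℚ} {S : Finset ℤ} {P : ℤ → Matrix n n ℂ} {D : Subgroup (GL n ℚ)}

/-- an element of infinite order has a nonzero logarithm -/
theorem exists_log {g : GL n ℂ} (hg : ∀ N : ℕ, 0 < N → g ^ N ≠ 1) :
    ∃ X : Matrix n n ℂ, X ≠ 0 ∧ ∀ (a b : ℕ) (t : (Fin a ⊕ Fin b → n) → ℂ) (N : ℕ), 0 < N →
      actF (slot a b ((g ^ N : GL n ℂ) : Matrix n n ℂ) (((g ^ N)⁻¹ : GL n ℂ) : Matrix n n ℂ)) t = t →
      dL a b t X = 0 := by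
  by_cases h : ∃ l : ℂ, Module.End.HasEigenvalue (Matrix.toLin' (g : Matrix n n ℂ)) l ∧ ∀ N : ℕ, 0 < N → l ^ N ≠ 1
  · obtain ⟨l, hl, hne⟩ := h
    exact log_ss hl hne
  · push Not at h
    exact log_un (fun l hl => by
      obtain ⟨N, hN, hN1⟩ := h l hl
      exact ⟨N, hN, hN1⟩) hg

/-- the tensor Lie algebra of a monodromy group is not zero -/
theorem IsMon.exists_ne (M : IsMon Q S P D) : ∃ X ∈ LG (mapC D), X ≠ 0 := by
  obtain ⟨γ, hγ, hinf⟩ := M.inf
  obtain ⟨X, hX, hk⟩ := exists_log (map_pow_ne hinf)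
  refine ⟨X, ?_, hX⟩
  intro a b t ht
  obtain ⟨D', h1, h2, h3⟩ := ht
  have hmem : Matrix.GeneralLinearGroup.map (algebraMap ℚ ℂ) γ ∈ mapC D := Subgroup.mem_map_of_mem _ hγ
  obtain ⟨N, hN, _, hN2⟩ := Subgroup.exists_pow_mem_of_relIndex_ne_zero h2 hmem
  exact hk a b t N hN (h3 _ hN2.1)

/-- the entries of the elements of `mapC D` are rational -/
theorem mapC_aut (σ : ℂ ≃+* ℂ) {g : GL n ℂ} (hg : g ∈ mapC D) :
    (g : Matrix n n ℂ).map σ = (g : Matrix n n ℂ) ∧
      ((g⁻¹ : GL n ℂ) : Matrix n n ℂ).map σ = ((g⁻¹ : GL n ℂ) : Matrix n n ℂ) := by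
  obtain ⟨γ, _, rfl⟩ := Subgroup.mem_map.mp hg
  constructor
  · ext i j
    simp [Matrix.GeneralLinearGroup.map_apply]
  · rw [← map_inv]
    ext i j
    simp only [Matrix.map_apply, Matrix.GeneralLinearGroup.map_apply, eq_ratCast, map_ratCast]

theorem tate_aut (σ : ℂ ≃+* ℂ) {a b : ℕ} {t : (Fin a ⊕ Fin b → n) → ℂ} (ht : IsTateTensor (mapC D) a b t) :
    IsTateTensor (mapC D) a b (fun i => σ (t i)) := by
  obtain ⟨D', h1, h2, h3⟩ := ht
  refine ⟨D', h1, h2, fun g hg => ?_⟩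
  obtain ⟨e1, e2⟩ := mapC_aut (D := D) σ (h1 hg)
  have e3 : slot a b (g : Matrix n n ℂ) ((g⁻¹ : GL n ℂ) : Matrix n n ℂ) =
      fun k => (slot a b (g : Matrix n n ℂ) ((g⁻¹ : GL n ℂ) : Matrix n n ℂ) k).map (σ : ℂ →+* ℂ) := by
    funext k
    rcases k with k | k
    · exact e1.symm
    · simp only [slot, Sum.elim_inr]
      conv_lhs => rw [← e2]
      rfl
  rw [e3]
  funext i
  have e5 := actF_map (σ : ℂ →+* ℂ) (slot a b (g : Matrix n n ℂ) ((g⁻¹ : GL n ℂ) : Matrix n n ℂ)) t i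
  rw [h3 g hg] at e5
  exact e5

/-- the tensor Lie algebra of a rational group is stable under the automorphisms of the complex numbers -/
theorem LG_aut (σ : ℂ ≃+* ℂ) {X : Matrix n n ℂ} (hX : X ∈ LG (mapC D)) : X.map σ ∈ LG (mapC D) := by
  intro a b t ht
  have h1 := hX a b _ (tate_aut σ.symm ht)
  have h2 := dL_σ σ X (fun i => σ.symm (t i))
  rw [h1] at h2
  have e1 : (fun i => σ (σ.symm (t i))) = t := funext fun i => by simp
  rw [e1] at h2
  rw [h2]
  funext i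
  simp

theorem dL_conj' {a b : ℕ} {t : (Fin a ⊕ Fin b → n) → ℂ} {X g g' : Matrix n n ℂ} (h1 : g * g' = 1)
    (ht : dL a b (actF (slot a b g' g) t) X = 0) : dL a b t (g * X * g') = 0 := by
  rw [dL_apply] at ht ⊢
  have h3 := dact_conj (slot a b g g') (slot a b g' g) (by
      rintro (k | k)
      · exact h1
      · simp only [slot, Sum.elim_inr]
        rw [← Matrix.transpose_mul, h1, Matrix.transpose_one]) (lslot a b X) t
  rw [ht, actF_zero] at h3
  rw [← h3]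
  congr 1
  funext k
  rcases k with k | k
  · rfl
  · simp only [lslot, slot, Sum.elim_inr, Matrix.transpose_mul, mul_neg, neg_mul, mul_assoc]

/-- the tensor Lie algebra of a monodromy group is stable under the Hodge cocharacter -/
theorem IsMon.LG_cochar (M : IsMon Q S P D) {w : ℤ} (H : IsHW w Q S P) {z : ℂ} (hz : z ≠ 0) {X : Matrix n n ℂ}
    (hX : X ∈ LG (mapC D)) : cochar S P z * X * cochar S P z⁻¹ ∈ LG (mapC D) := by
  intro a b t ht
  refine dL_conj' (H.cochar_mul z hz) ?_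
  have h1 := M.fixed a b t ht z⁻¹ (inv_ne_zero hz)
  rw [inv_inv] at h1
  exact hX a b _ h1

/-! ### the polarisation -/

/-- the tensor of type `(0, 2)` of a matrix -/
def t02 (A : Matrix n n ℂ) : (Fin 0 ⊕ Fin 2 → n) → ℂ := fun i => A (i (Sum.inr 0)) (i (Sum.inr 1))

theorem actF_t02 (A : Matrix n n ℂ) (Y : Fin 0 ⊕ Fin 2 → Matrix n n ℂ) :
    actF Y (t02 A) = t02 (Y (Sum.inr 0) * A * (Y (Sum.inr 1))ᵀ) := by
  funext i
  unfold actF t02
  rw [← Equiv.sum_comp ((Equiv.sumArrowEquivProdArrow (Fin 0) (Fin 2) n).trans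
    ((Equiv.uniqueProd _ _).trans (finTwoArrowEquiv n))).symm, Fintype.sum_prod_type]
  simp only [Matrix.mul_apply, Finset.sum_mul, Matrix.transpose_apply, Fintype.prod_sum_type, Finset.univ_eq_empty,
    Finset.prod_empty, one_mul, Fin.prod_univ_two]
  rw [Finset.sum_comm]
  refine Finset.sum_congr rfl fun x _ => Finset.sum_congr rfl fun y _ => ?_
  simp [Equiv.sumArrowEquivProdArrow]
  ring

theorem dL_t02 (A X : Matrix n n ℂ) : dL 0 2 (t02 A) X = t02 (-(Xᵀ * A + A * X)) := by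
  rw [dL_apply]
  unfold dact
  rw [Fintype.sum_sum_type, Finset.univ_eq_empty, Finset.sum_empty, zero_add, Fin.sum_univ_two, actF_t02, actF_t02]
  funext i
  simp [t02, lslot]
  ring

theorem t02_inj {A B : Matrix n n ℂ} (h : t02 A = t02 B) : A = B := by
  ext x y
  exact congrFun h (Sum.elim Fin.elim0 ![x, y])

/-- the elements of the tensor Lie algebra of a group of isometries are skew -/
theorem IsMon.LG_skew (M : IsMon Q S P D) {X : Matrix n n ℂ} (hX : X ∈ LG (mapC D)) :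
    Xᵀ * toC Q + toC Q * X = 0 := by
  have h1 : IsTateTensor (mapC D) 0 2 (t02 (toC Q)) := by
    refine ⟨mapC D, le_rfl, by rw [Subgroup.relIndex_self]; exact one_ne_zero, fun g hg => ?_⟩
    have hg' : g⁻¹ ∈ mapC D := (mapC D).inv_mem hg
    obtain ⟨γ, hγ, e1⟩ := Subgroup.mem_map.mp hg'
    have h2 := M.isom γ hγ
    have h3 : (((g⁻¹ : GL n ℂ) : Matrix n n ℂ))ᵀ * toC Q * ((g⁻¹ : GL n ℂ) : Matrix n n ℂ) = toC Q := by
      have e2 : ((g⁻¹ : GL n ℂ) : Matrix n n ℂ) = toC (γ : Matrix n n ℚ) := by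
        rw [← e1]
        rfl
      rw [e2]
      have e3 := congrArg toC h2
      unfold toC at e3 ⊢
      rw [Matrix.map_mul, Matrix.map_mul, Matrix.transpose_map] at e3
      exact e3
    rw [actF_t02]
    simp only [slot, Sum.elim_inr, Matrix.transpose_transpose]
    rw [h3]
  have h2 := hX 0 2 _ h1
  rw [dL_t02] at h2
  have h3 : t02 (-(Xᵀ * toC Q + toC Q * X)) = t02 (0 : Matrix n n ℂ) := by
    rw [h2]
    rfl
  exact neg_eq_zero.mp (t02_inj h3)

/-- **Big monodromy.** If all skew matrices kill all Hodge tensors, the monodromy group is as large as possible. -/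
theorem IsMon.full (M : IsMon Q S P D) {w : ℤ} (H : IsHW w Q S P) (hw : Even w) (hn : 5 ≤ Fintype.card n)
    (hfull : ∀ X : Matrix n n ℂ, Xᵀ * toC Q + toC Q * X = 0 → X ∈ LH Q S P) {X : Matrix n n ℂ}
    (hX : Xᵀ * toC Q + toC Q * X = 0) : X ∈ LG (mapC D) := by
  obtain ⟨_, _, Qi, _, _, hQ1, hQ2, _⟩ := H.exists_basis
  have hQd : (toC Q).det ≠ 0 := by
    intro h
    have := congrArg Matrix.det hQ1
    rw [Matrix.det_mul, h, zero_mul, Matrix.det_one] at this
    exact zero_ne_one this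
  have hQs : (toC Q)ᵀ = toC Q := by
    rw [H.Q_symm, hw.neg_one_zpow, one_smul]
  refine so_simple hQs hQd hn (M := LG (mapC D)) (fun X hX => M.LG_skew hX) ?_ ?_ hX
  · intro Y hY X hX
    exact H.ideal_of_sub (fun σ X hX => LG_aut σ hX) (fun z hz X hX => M.LG_cochar H hz hX)
      (fun X hX => M.LG_skew hX) (hfull Y hY) hX
  · obtain ⟨X, hX, hX0⟩ := M.exists_ne
    intro h
    rw [h, Submodule.mem_bot] at hX
    exact hX0 hX

end mon

end MH
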