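import Pool.Agent.Helper2.NT.Neat
import Pool.Agent.Helper2.MON.Use

/-!
Project MON-W (MP_b8862a_ag): an element no power of which is scalar on the range of a matrix has a logarithm that is not scalar
there.
-/

set_option linter.unusedSectionVars false

open Matrix

namespace MH

variable {n : Type*} [Fintype n] [DecidableEq n]

open Polynomial in
/-- the logarithm of a unipotent matrix; it has no nonzero eigenvalues -/
theorem exists_log_un3 {u u' : Matrix n n ℂ} (huu : u * u' = 1) (huu' : u' * u = 1) (hnil : IsNilpotent (u - 1)) :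
    ∃ X : Matrix n n ℂ, ∀ (a b : ℕ) (t : (Fin a ⊕ Fin b → n) → ℂ),
      (∀ N : ℕ, 0 < N → actF (slot a b (u ^ N) (u' ^ N)) t = t → dL a b t X = 0) ∧
      (dL a b t X = 0 → actF (slot a b u u') t = t) ∧ (∀ c : ℂ, c ≠ 0 → dL a b t X = c • t → t = 0) := by
  have hnil' : IsNilpotent (u' - 1) := by
    have h1 : u' - 1 = -(u' * (u - 1)) := by rw [mul_sub, huu', mul_one]; abel
    have h2 : Commute u' (u - 1) := by
      have h3 : Commute u' u := by rw [Commute, SemiconjBy, huu, huu']
      exact h3.sub_right (Commute.one_right _)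
    rw [h1]
    exact (h2.isNilpotent_mul_left hnil).neg
  obtain ⟨U, hU⟩ := interp_nt hnil
  obtain ⟨U', hU'⟩ := interp_nt hnil'
  simp only [add_sub_cancel] at hU hU'
  let D : Matrix n n ℂ[X] → Matrix n n ℂ := fun A => A.map fun p => (derivative p).eval 0
  have hD : ∀ A B : Matrix n n ℂ[X], D (A * B) = D A * B.map (evalRingHom 0) + A.map (evalRingHom 0) * D B := by
    intro A B
    ext i j
    simp only [D, Matrix.map_apply, Matrix.mul_apply, Matrix.add_apply, derivative_sum, eval_finsetSum, derivative_mul,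
      eval_add, eval_mul, Finset.sum_add_distrib, coe_evalRingHom]
  have hU0 : U.map (evalRingHom 0) = 1 := by
    have := hU 0
    rwa [Nat.cast_zero, pow_zero] at this
  have hU0' : U'.map (evalRingHom 0) = 1 := by
    have := hU' 0
    rwa [Nat.cast_zero, pow_zero] at this
  have hinv : U * U' = 1 := by
    refine mat_ext_nt fun k => ?_
    rw [Matrix.map_mul, hU, hU', Matrix.map_one _ (map_zero _) (map_one _)]
    have h3 : Commute u u' := by rw [Commute, SemiconjBy, huu, huu']
    rw [← h3.mul_pow, huu, one_pow]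
  have hX' : D U' = -D U := by
    have h1 := hD U U'
    rw [hinv, hU0, hU0', mul_one, one_mul] at h1
    have h2 : D (1 : Matrix n n ℂ[X]) = 0 := by
      ext i j
      simp only [D, Matrix.map_apply, Matrix.zero_apply, Matrix.one_apply]
      split_ifs <;> simp
    rw [h2] at h1
    exact (neg_eq_of_add_eq_zero_right h1.symm).symm
  refine ⟨D U, fun a b t => ?_⟩
  have hslot : ∀ x, (slot a b U U' x).map (evalRingHom 0) = 1 := by
    intro x
    rcases x with x | x
    · exact hU0
    · simp only [slot, Sum.elim_inr]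
      rw [← Matrix.transpose_one, ← hU0']
      rfl
  have hder : ∀ i, (derivative (actF (slot a b U U') (fun j => C (t j)) i)).eval 0 = dL a b t (D U) i := by
    intro i
    rw [der_actF_nt (slot a b U U') t hslot i, dL_apply]
    congr 2
    funext x
    rcases x with x | x
    · rfl
    · simp only [lslot, slot, Sum.elim_inr]
      rw [← Matrix.transpose_neg, ← hX']
      rfl
  have heval : ∀ (k : ℕ) (i), (actF (slot a b U U') (fun j => C (t j)) i).eval (k : ℂ) =
      actF (slot a b (u ^ k) (u' ^ k)) t i := by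
    intro k i
    have h1 := actF_map (evalRingHom (k : ℂ)) (slot a b U U') (fun j => C (t j)) i
    simp only [coe_evalRingHom, eval_C] at h1
    rw [← h1]
    have h2 : (fun x => (slot a b U U' x).map (eval (k : ℂ))) = slot a b (u ^ k) (u' ^ k) := by
      funext x
      rcases x with x | x
      · exact hU k
      · simp only [slot, Sum.elim_inr]
        rw [← hU' k]
        rfl
    rw [h2]
  set p : (Fin a ⊕ Fin b → n) → ℂ[X] := fun i => actF (slot a b U U') (fun j => C (t j)) i with hp
  have hcomp : ∀ (k : ℕ) (i), (p i).comp (Polynomial.X + C (k : ℂ)) =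
      ∑ j, C (∏ x, slot a b (u ^ k) (u' ^ k) x (i x) (j x)) * p j := by
    intro k i
    rw [← sub_eq_zero]
    refine poly_zero_nt one_pos fun l => ?_
    rw [one_mul, eval_sub, sub_eq_zero, eval_comp, eval_add, eval_X, eval_C, eval_finsetSum]
    have h1 : ((l : ℂ) + (k : ℂ)) = ((k + l : ℕ) : ℂ) := by push_cast; ring
    rw [h1]
    change (actF (slot a b U U') (fun j => C (t j)) i).eval _ = _
    rw [heval]
    have h2 : slot a b (u ^ (k + l)) (u' ^ (k + l)) = fun x => slot a b (u ^ k) (u' ^ k) x * slot a b (u ^ l) (u' ^ l) x := by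
      funext x
      rcases x with x | x
      · exact pow_add u k l
      · simp only [slot, Sum.elim_inr]
        rw [← Matrix.transpose_mul, ← pow_add, add_comm]
    rw [h2, ← actF_mul]
    unfold actF
    refine Finset.sum_congr rfl fun j _ => ?_
    rw [eval_mul, eval_C]
    congr 1
    exact (heval l j).symm
  have hderk : ∀ (k : ℕ) (i), (derivative (p i)).eval (k : ℂ) =
      ∑ j, (∏ x, slot a b (u ^ k) (u' ^ k) x (i x) (j x)) * (derivative (p j)).eval 0 := by
    intro k i
    have h1 := congrArg (fun q : ℂ[X] => (derivative q).eval 0) (hcomp k i)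
    simp only [derivative_comp, derivative_add, derivative_X, derivative_C, add_zero, one_mul, eval_comp, eval_add,
      eval_X, eval_C, zero_add, derivative_sum, eval_finsetSum, derivative_mul, zero_mul, eval_mul] at h1
    exact h1
  refine ⟨?_, ?_, ?_⟩
  · intro N hN ht
    have hF : ∀ i, actF (slot a b U U') (fun j => C (t j)) i = C (t i) := by
      intro i
      rw [← sub_eq_zero]
      refine poly_zero_nt hN fun k => ?_
      rw [eval_sub, eval_C, sub_eq_zero, heval, pow_mul, pow_mul, slot_pow_nt ht k]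
    funext i
    rw [← hder i, hF i, derivative_C, eval_zero]
    rfl
  · intro h0
    have hzero : ∀ i, derivative (p i) = 0 := by
      intro i
      refine poly_zero_nt one_pos fun k => ?_
      rw [one_mul, hderk]
      refine Finset.sum_eq_zero fun j _ => ?_
      have h2 : (derivative (p j)).eval 0 = 0 := by
        rw [hp, hder j, h0]
        rfl
      rw [h2, mul_zero]
    funext i
    have h1 := Polynomial.eq_C_of_derivative_eq_zero (hzero i)
    have h2 : (p i).eval ((1 : ℕ) : ℂ) = (p i).eval ((0 : ℕ) : ℂ) := by rw [h1, eval_C, eval_C]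
    change (actF (slot a b U U') (fun j => C (t j)) i).eval _ = (actF (slot a b U U') (fun j => C (t j)) i).eval _ at h2
    rw [heval, heval, pow_one, pow_one, pow_zero, pow_zero] at h2
    rw [h2]
    have h3 : slot a b (1 : Matrix n n ℂ) 1 = fun _ => 1 := by
      funext x
      rcases x with x | x
      · rfl
      · simp [slot]
    rw [h3, actF_one]
  · intro c hc h0
    have hone : slot a b (1 : Matrix n n ℂ) 1 = fun _ => 1 := by
      funext x
      rcases x with x | x
      · rfl
      · simp [slot]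
    have hpc : ∀ i, derivative (p i) = C c * p i := by
      intro i
      rw [← sub_eq_zero]
      refine poly_zero_nt one_pos fun k => ?_
      rw [one_mul, eval_sub, sub_eq_zero, hderk, eval_mul, eval_C]
      have h3 : (p i).eval (k : ℂ) = actF (slot a b (u ^ k) (u' ^ k)) t i := heval k i
      rw [h3]
      unfold actF
      rw [Finset.mul_sum]
      refine Finset.sum_congr rfl fun j _ => ?_
      have h2 : (derivative (p j)).eval 0 = c * t j := by
        rw [hp, hder j, h0]
        rfl
      rw [h2]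
      ring
    funext i
    have h4 : p i = 0 := by
      by_contra h5
      have h6 := Polynomial.degree_derivative_lt h5
      rw [hpc i, Polynomial.degree_C_mul hc] at h6
      exact lt_irrefl _ h6
    have h7 : (p i).eval ((0 : ℕ) : ℂ) = actF (slot a b (u ^ 0) (u' ^ 0)) t i := heval 0 i
    rw [pow_zero, pow_zero, hone, actF_one, h4, eval_zero] at h7
    exact h7.symm

/-- vectors as tensors -/
def v10 (v : n → ℂ) : (Fin 1 ⊕ Fin 0 → n) → ℂ := fun i => v (i (Sum.inl 0))

/-- the indices of type `(1, 0)` -/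
def ev10 : n ≃ (Fin 1 ⊕ Fin 0 → n) where
  toFun x := fun _ => x
  invFun i := i (Sum.inl 0)
  left_inv _ := rfl
  right_inv i := by
    funext k
    rcases k with k | k
    · rw [Subsingleton.elim k 0]
    · exact k.elim0

theorem actF_v10 (Y : Fin 1 ⊕ Fin 0 → Matrix n n ℂ) (v : n → ℂ) : actF Y (v10 v) = v10 (Y (Sum.inl 0) *ᵥ v) := by
  funext i
  unfold actF
  rw [← Equiv.sum_comp (ev10 (n := n))]
  simp only [v10, Matrix.mulVec, dotProduct]
  refine Finset.sum_congr rfl fun x _ => ?_
  rw [Fintype.prod_sum_type, Finset.univ_eq_empty (α := Fin 0), Finset.prod_empty, mul_one, Fin.prod_univ_one]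
  rfl

theorem dL_v10 (v : n → ℂ) (X : Matrix n n ℂ) : dL 1 0 (v10 v) X = v10 (X *ᵥ v) := by
  rw [dL_apply]
  unfold dact
  rw [Fintype.sum_sum_type, Finset.univ_eq_empty (α := Fin 0), Finset.sum_empty, add_zero, Fin.sum_univ_one, actF_v10,
    Function.update_self]
  rfl

theorem v10_inj {v v' : n → ℂ} (h : v10 v = v10 v') : v = v' := funext fun x => congrFun h (fun _ => x)

/-- an element no power of which is scalar on the range of `e` has a logarithm that is not scalar there -/
theorem exists_nonscalar_log {g : GL n ℂ} {e : Matrix n n ℂ}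
    (hge : ∀ N : ℕ, 0 < N → ∀ c : ℂ, ((g ^ N : GL n ℂ) : Matrix n n ℂ) * e ≠ c • e) :
    ∃ X ∈ LG (Subgroup.zpowers g), ∀ c : ℂ, X * e ≠ c • e := by
  by_contra hcon
  push Not at hcon
  obtain ⟨P, Pi, u, u', μ, J⟩ := exists_JDat g
  obtain ⟨X, hX⟩ := exists_log_un3 J.uu J.uu' J.nil
  -- the semisimple part
  have h1 : ∀ φ : Additive ℂˣ →+ ℚ,
      P * (Matrix.diagonal fun x => ((φ (Additive.ofMul (μ x)) : ℚ) : ℂ)) * Pi ∈ LG (Subgroup.zpowers g) := by
    intro φ a b t ht
    obtain ⟨N, hN, ht⟩ := exists_pow_of_tate ht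
    rw [J.dL_zero_iff]
    funext i
    rw [dact_wt]
    by_cases hi : actF (slot a b Pi P) t i = 0
    · rw [hi, mul_zero]
      rfl
    · have h2 := J.wt_pow ht hi
      have h7 : (N : ℕ) • φ (Additive.ofMul (wt a b μ i)) = 0 := by
        rw [← map_nsmul, ← ofMul_pow, h2, ofMul_one, map_zero]
      rcases smul_eq_zero.1 h7 with h8 | h8
      · omega
      · rw [h8, Rat.cast_zero, zero_mul]
        rfl
  -- the unipotent part
  have h2 : P * X * Pi ∈ LG (Subgroup.zpowers g) := by
    intro a b t ht
    obtain ⟨N, hN, ht⟩ := exists_pow_of_tate ht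
    rw [J.dL_zero_iff]
    exact (hX a b _).1 N hN (J.un_pow ht)
  set e' := Pi * e with he'
  have hPe : P * e' = e := by rw [he', ← mul_assoc, J.pq, one_mul]
  have hconj : ∀ Y : Matrix n n ℂ, P * Y * Pi ∈ LG (Subgroup.zpowers g) → ∃ c : ℂ, Y * e' = c • e' := by
    intro Y hY
    obtain ⟨c, hc⟩ := hcon _ hY
    refine ⟨c, ?_⟩
    calc Y * e' = Pi * (P * Y * Pi * e) := by
          rw [he']
          calc Y * (Pi * e) = (Pi * P) * Y * (Pi * e) := by rw [J.qp, one_mul]
            _ = _ := by simp only [mul_assoc]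
      _ = _ := by rw [hc, mul_smul_comm]
  have hcol : ∀ (A : Matrix n n ℂ) (j : n), A *ᵥ (fun i => e' i j) = fun i => (A * e') i j := by
    intro A j
    funext i
    rw [Matrix.mul_apply]
    rfl
  -- the unipotent part fixes the range
  have hue : u * e' = e' := by
    obtain ⟨c, hc⟩ := hconj X h2
    have h3 : ∀ j, u *ᵥ (fun i => e' i j) = fun i => e' i j := by
      intro j
      have h4 : dL 1 0 (v10 fun i => e' i j) X = c • v10 fun i => e' i j := by
        rw [dL_v10, hcol, hc]
        rfl
      by_cases hc0 : c = 0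
      · have h5 := (hX 1 0 (v10 fun i => e' i j)).2.1 (by rw [h4, hc0, zero_smul])
        rw [actF_v10] at h5
        exact v10_inj h5
      · have h5 := (hX 1 0 (v10 fun i => e' i j)).2.2 c hc0 h4
        have h6 : (fun i => e' i j) = 0 := v10_inj (by rw [h5]; rfl)
        rw [h6, Matrix.mulVec_zero]
    ext x j
    have h4 := congrFun (h3 j) x
    rw [hcol] at h4
    exact h4
  -- the semisimple part
  have he0 : e' ≠ 0 := by
    intro h0
    apply hge 1 one_pos 0
    rw [← hPe, h0, mul_zero, mul_zero, smul_zero]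
  obtain ⟨i0, j0, hij⟩ : ∃ i j, e' i j ≠ 0 := by
    by_contra h
    push Not at h
    exact he0 (Matrix.ext h)
  have hfin : ∀ i, (∃ j, e' i j ≠ 0) → ∃ N : ℕ, 0 < N ∧ (μ i * (μ i0)⁻¹) ^ N = 1 := by
    rintro i ⟨j, hj⟩
    by_contra hN
    push Not at hN
    have h6 : ∀ N : ℕ, 0 < N → ((μ i * (μ i0)⁻¹ : ℂˣ) : ℂ) ^ N ≠ 1 := by
      intro N hN' h7
      refine hN N hN' (Units.ext ?_)
      rw [Units.val_pow_eq_pow_val, h7, Units.val_one]
    obtain ⟨φ, hφ⟩ := exists_phi_nt (Units.ne_zero _) h6
    apply hφ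
    rw [Units.mk0_val]
    obtain ⟨c, hc⟩ := hconj _ (h1 φ)
    have h7 : ((φ (Additive.ofMul (μ i)) : ℚ) : ℂ) = c := by
      have h8 := congrFun (congrFun hc i) j
      rw [Matrix.diagonal_mul, Matrix.smul_apply, smul_eq_mul] at h8
      exact mul_right_cancel₀ hj h8
    have h8 : ((φ (Additive.ofMul (μ i0)) : ℚ) : ℂ) = c := by
      have h8 := congrFun (congrFun hc i0) j0
      rw [Matrix.diagonal_mul, Matrix.smul_apply, smul_eq_mul] at h8
      exact mul_right_cancel₀ hij h8
    have h9 : φ (Additive.ofMul (μ i)) = φ (Additive.ofMul (μ i0)) := by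
      have : ((φ (Additive.ofMul (μ i)) : ℚ) : ℂ) = ((φ (Additive.ofMul (μ i0)) : ℚ) : ℂ) := by rw [h7, h8]
      exact_mod_cast this
    rw [ofMul_mul, ofMul_inv, map_add, map_neg, h9, add_neg_cancel]
  have hfin' : ∀ i, ∃ N : ℕ, 0 < N ∧ ((∃ j, e' i j ≠ 0) → (μ i * (μ i0)⁻¹) ^ N = 1) := by
    intro i
    by_cases h : ∃ j, e' i j ≠ 0
    · obtain ⟨N, hN, h3⟩ := hfin i h
      exact ⟨N, hN, fun _ => h3⟩
    · exact ⟨1, one_pos, fun h' => absurd h' h⟩
  choose N hN hN1 using hfin'
  set M := ∏ i, N i with hM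
  have hMpos : 0 < M := Finset.prod_pos fun i _ => hN i
  have hss : Matrix.diagonal (fun i => (μ i : ℂ)) ^ M * e' = ((μ i0 : ℂ) ^ M) • e' := by
    rw [Matrix.diagonal_pow]
    ext i j
    rw [Matrix.diagonal_mul, Matrix.smul_apply, smul_eq_mul, _root_.Pi.pow_apply]
    by_cases h : e' i j = 0
    · rw [h, mul_zero, mul_zero]
    · obtain ⟨d, hd⟩ := Finset.dvd_prod_of_mem N (Finset.mem_univ i)
      have h3 : (μ i * (μ i0)⁻¹) ^ M = 1 := by
        rw [hM, hd, pow_mul, hN1 i ⟨j, h⟩, one_pow]
      have h4 : μ i ^ M = μ i0 ^ M := by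
        rw [mul_pow, inv_pow, mul_inv_eq_one] at h3
        exact h3
      congr 1
      have h5 := congrArg (fun x : ℂˣ => (x : ℂ)) h4
      simpa only [Units.val_pow_eq_pow_val] using h5
  have hu : ∀ k : ℕ, u ^ k * e' = e' := by
    intro k
    induction k with
    | zero => rw [pow_zero, one_mul]
    | succ k ih => rw [pow_succ, mul_assoc, hue, ih]
  apply hge M hMpos ((μ i0 : ℂ) ^ M)
  have h3 := J.pow_eq M
  calc ((g ^ M : GL n ℂ) : Matrix n n ℂ) * e = (P * Pi) * ((g ^ M : GL n ℂ) : Matrix n n ℂ) * (P * e') := by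
        rw [J.pq, one_mul, hPe]
    _ = P * (Pi * ((g ^ M : GL n ℂ) : Matrix n n ℂ) * P) * e' := by simp only [mul_assoc]
    _ = P * (Matrix.diagonal (fun i => (μ i : ℂ)) ^ M * (u ^ M * e')) := by
        rw [h3]
        simp only [mul_assoc]
    _ = _ := by rw [hu, hss, mul_smul_comm, hPe]

/-- **The group form.** If no power of some element of `D` is scalar on the range of `e`, then some element of the
tensor Lie algebra of `D` is not scalar there. -/
theorem nonscalar_of_group {D : Subgroup (GL n ℚ)} {e : Matrix n n ℂ}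
    (h : ∃ g ∈ D, ∀ N : ℕ, 0 < N → ∀ c : ℂ, toC ((g : Matrix n n ℚ) ^ N) * e ≠ c • e) :
    ∃ X ∈ LG (mapC D), ∀ c : ℂ, X * e ≠ c • e := by
  obtain ⟨g, hg, h⟩ := h
  obtain ⟨X, hX, h1⟩ := exists_nonscalar_log (g := Matrix.GeneralLinearGroup.map (algebraMap ℚ ℂ) g) (e := e) (by
    intro N hN c
    rw [← map_pow]
    have h2 := h N hN c
    rw [← Units.val_pow_eq_pow_val] at h2
    exact h2)
  exact ⟨X, LG_mono ((Subgroup.zpowers_le).2 (Subgroup.mem_map_of_mem _ hg)) hX, h1⟩

end MH
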