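import Pool.Agent.Helper2.EL.Fin
import Pool.Agent.Helper2.MON.Use

/-!
Project MON (MP_b8862a_ag): Galois groups that contain a monodromy group.
-/

set_option linter.unusedSectionVars false

open Matrix

namespace MH

variable {n : Type*} [Fintype n] [DecidableEq n]
variable {m : ℤ} {Q : Matrix n n ℚ} {S : Finset ℤ} {P R : ℤ → Matrix n n ℂ} {Γ : Subgroup (GL n ℂ)}

theorem IsHS.toHW (H : IsHS m Q S P) : IsHW (2 * m) Q S P where
  mul := H.mul
  supp := H.supp
  sum := H.sum
  conj := H.conj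
  symm := by rw [(even_two_mul m).neg_one_zpow, one_smul, H.symm]
  orth := H.orth
  pos := by
    intro p v hv hv0
    have h1 := H.pos p v hv hv0
    have e1 : Complex.I ^ (2 * p - 2 * m) = (((-1 : ℝ) ^ (p - m) : ℝ) : ℂ) := by
      rw [← mul_sub, _root_.zpow_mul, Complex.ofReal_zpow]
      congr 1
      norm_num
    rw [e1, Complex.re_ofReal_mul]
    exact h1

/-- If all skew matrices are in the tensor Lie algebra of `Γ`, the tensors of `Γ` are the Hodge tensors. -/
theorem tate_of_full (H : IsHS m Q S P) (G : IsGal m Q S P Γ R) [Nonempty n]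
    (hMT : ∀ (g : GL n ℂ) (z : ℂ), (m = 0 → z = 1) → (g : Matrix n n ℂ)ᵀ * toC Q * (g : Matrix n n ℂ) = z ^ 2 • toC Q →
      (g : Matrix n n ℂ).det = z ^ Fintype.card n → g ∈ MT S P)
    (hfull : ∀ X : Matrix n n ℂ, Xᵀ * toC Q + toC Q * X = 0 → X ∈ LG Γ)
    (a b : ℕ) (t : (Fin a ⊕ Fin b → n) → ℂ) :
    IsTateTensor Γ a b t ↔ ∀ g ∈ MT S P, actF (slot a b (g : Matrix n n ℂ) ((g⁻¹ : GL n ℂ) : Matrix n n ℂ)) t = t := by
  classical
  have hn0 : ((Fintype.card n : ℕ) : ℂ) ≠ 0 := by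
    exact_mod_cast Fintype.card_ne_zero
  obtain ⟨B, Bi, Qi, _, _, hQ1, hQ2, _⟩ := H.exists_basis
  have hQd : (toC Q).det ≠ 0 := by
    intro h
    have := congrArg Matrix.det hQ1
    rw [Matrix.det_mul, h, zero_mul, Matrix.det_one] at this
    exact zero_ne_one this
  -- scalars
  have hh0 : ∑ p ∈ S, ((p - m : ℤ) : ℂ) • R p = (∑ p ∈ S, (p : ℂ) • R p) - (m : ℂ) • (1 : Matrix n n ℂ) := by
    rw [← G.sum, Finset.smul_sum, ← Finset.sum_sub_distrib]
    refine Finset.sum_congr rfl fun p _ => ?_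
    rw [← sub_smul]
    push_cast
    rfl
  have htr := trace_h0 H G
  have h1G : m ≠ 0 → (1 : Matrix n n ℂ) ∈ LG Γ := by
    intro hm
    obtain ⟨c, _, hc⟩ := G.LG_sim H G.h_mem
    set X := ∑ p ∈ S, (p : ℂ) • R p with hX
    have hXtr : X.trace = (m : ℂ) * Fintype.card n := by
      rw [hh0, Matrix.trace_sub, Matrix.trace_smul, Matrix.trace_one, smul_eq_mul] at htr
      linear_combination htr
    have h1 : (Xᵀ + toC Q * X * Qi).trace = c * Fintype.card n := by
      have h2 : Xᵀ + toC Q * X * Qi = c • (1 : Matrix n n ℂ) := by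
        have h3 := congrArg (fun Y => Y * Qi) hc
        simp only [add_mul, smul_mul_assoc, hQ1] at h3
        rw [mul_assoc Xᵀ, hQ1, mul_one] at h3
        exact h3
      rw [h2, Matrix.trace_smul, Matrix.trace_one, smul_eq_mul]
    rw [Matrix.trace_add, Matrix.trace_transpose, Matrix.trace_mul_comm, ← mul_assoc, hQ2, one_mul, hXtr] at h1
    have h2 : c = 2 * m := by
      have h3 : (c - 2 * m) * (Fintype.card n : ℂ) = 0 := by linear_combination -h1
      rcases mul_eq_zero.1 h3 with h | h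
      · linear_combination h
      · exact absurd h hn0
    have h3 : X - (m : ℂ) • (1 : Matrix n n ℂ) ∈ LG Γ := by
      apply hfull
      rw [Matrix.transpose_sub, Matrix.transpose_smul, Matrix.transpose_one, sub_mul, mul_sub, smul_mul_assoc,
        one_mul, mul_smul_comm, mul_one]
      have e1 : Xᵀ * toC Q - (m : ℂ) • toC Q + (toC Q * X - (m : ℂ) • toC Q) =
          (Xᵀ * toC Q + toC Q * X) - (2 * (m : ℂ)) • toC Q := by
        rw [two_mul, add_smul]
        abel
      rw [e1, hc, h2, sub_self]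
    have h4 := (LG Γ).sub_mem G.h_mem h3
    rw [← hX, sub_sub_cancel] at h4
    have h5 := (LG Γ).smul_mem ((m : ℂ))⁻¹ h4
    rwa [smul_smul, inv_mul_cancel₀ (by exact_mod_cast hm), one_smul] at h5
  constructor
  · intro ht g hg
    have hk : ∀ X : Matrix n n ℂ, Xᵀ * toC Q + toC Q * X = 0 → dL a b t X = 0 := fun X hX => hfull X hX a b t ht
    obtain ⟨z, hz0, hz1, hz2⟩ := MT_le H hg
    by_cases hm : m = 0
    · rw [hz0 hm, one_pow, one_smul] at hz1
      rw [hz0 hm, one_pow] at hz2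
      exact so_fix (toC Q) H.Q_symm hQd hk hz1 hz2
    · have hz : z ≠ 0 := by
        rintro rfl
        have h1 : (g : Matrix n n ℂ) * ((g⁻¹ : GL n ℂ) : Matrix n n ℂ) = 1 := by
          rw [← Units.val_mul, mul_inv_cancel, Units.val_one]
        have h2 := congrArg Matrix.det h1
        rw [Matrix.det_mul, hz2, zero_pow Fintype.card_ne_zero, zero_mul, Matrix.det_one] at h2
        exact zero_ne_one h2
      have hsc : ∀ w : ℂ, w ≠ 0 → ∀ f : GL n ℂ, ∃ f' : GL n ℂ, (f' : Matrix n n ℂ) = w • (f : Matrix n n ℂ) := by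
        intro w hw f
        refine ⟨⟨w • (f : Matrix n n ℂ), w⁻¹ • ((f⁻¹ : GL n ℂ) : Matrix n n ℂ), ?_, ?_⟩, rfl⟩
        · rw [smul_mul_smul_comm, mul_inv_cancel₀ hw, one_smul, ← Units.val_mul, mul_inv_cancel, Units.val_one]
        · rw [smul_mul_smul_comm, inv_mul_cancel₀ hw, one_smul, ← Units.val_mul, inv_mul_cancel, Units.val_one]
      obtain ⟨g₀, hg₀⟩ := hsc z⁻¹ (inv_ne_zero hz) g
      obtain ⟨z₁, hz₁⟩ := hsc z hz 1
      have h1 : (g₀ : Matrix n n ℂ)ᵀ * toC Q * (g₀ : Matrix n n ℂ) = toC Q := by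
        rw [hg₀, Matrix.transpose_smul, smul_mul_assoc, smul_mul_assoc, mul_smul_comm, smul_smul, hz1, smul_smul]
        have : z⁻¹ * z⁻¹ * z ^ 2 = 1 := by field_simp
        rw [this, one_smul]
      have h2 : (g₀ : Matrix n n ℂ).det = 1 := by
        rw [hg₀, Matrix.det_smul, hz2, ← mul_pow, inv_mul_cancel₀ hz, one_pow]
      have h3 := so_fix (toC Q) H.Q_symm hQd hk h1 h2
      have h4 := scal_fix (a := a) (b := b) (t := t) (h1G hm a b t ht) (g := z₁) (z := z)
        (by rw [hz₁, Units.val_one])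
      have h5 : g = z₁ * g₀ := by
        apply Units.ext
        rw [Units.val_mul, hz₁, hg₀, Units.val_one, smul_mul_smul_comm, mul_inv_cancel₀ hz, one_smul, one_mul]
      have e1 : slot a b ((z₁ * g₀ : GL n ℂ) : Matrix n n ℂ) (((z₁ * g₀)⁻¹ : GL n ℂ) : Matrix n n ℂ) =
          fun k => slot a b (z₁ : Matrix n n ℂ) ((z₁⁻¹ : GL n ℂ) : Matrix n n ℂ) k *
            slot a b (g₀ : Matrix n n ℂ) ((g₀⁻¹ : GL n ℂ) : Matrix n n ℂ) k := by
        funext k
        rcases k with k | k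
        · rfl
        · simp only [slot, Sum.elim_inr, _root_.mul_inv_rev, Units.val_mul, Matrix.transpose_mul]
      rw [h5, e1, ← actF_mul, h3, h4]
  · intro ht
    obtain ⟨Γ', h1, h2, h3⟩ := exists_idx H G
    refine ⟨Γ', h1, h2, fun g hg => ?_⟩
    obtain ⟨z, a1, a2, a3⟩ := h3 g hg
    exact ht g (hMT g z a1 a2 a3)

end MH
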