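import Pool.Agent.Helper2.MON.W1
import Pool.Agent.Helper14.GH.TyB
import Pool.Agent.Helper63.GH.Ty

/-!
Project MON-W (MP_b8862a_ag), second part: a monodromy group that is big on every block contains the derived group of the
Mumford-Tate group.
-/

set_option linter.unusedSectionVars false

open Matrix GH

namespace MH

variable {n : Type*} [Fintype n] [DecidableEq n]
variable {w : ℤ} {Q : Matrix n n ℚ} {S : Finset ℤ} {P : ℤ → Matrix n n ℂ} {D : Subgroup (GL n ℚ)}

/-- The Lie algebra of the derived group of the Mumford-Tate group. -/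
structure InLD (Q : Matrix n n ℚ) (S : Finset ℤ) (P : ℤ → Matrix n n ℂ) (X : Matrix n n ℂ) : Prop where
  com : ∀ T : Matrix n n ℂ, SI S P T → X * T = T * X
  skew : Xᵀ * toC Q + toC Q * X = 0
  tr : ∀ f ∈ EC P, (X * f).trace = 0

/-- the bracket of two elements acting on the lines of the semi-invariants -/
theorem InLD.of_bracket {Y Z : Matrix n n ℂ} (hY : ∀ T, SI S P T → ∃ c : ℂ, Y * T - T * Y = c • T)
    (hZ : ∀ T, SI S P T → ∃ c : ℂ, Z * T - T * Z = c • T) (sY : Yᵀ * toC Q + toC Q * Y = 0)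
    (sZ : Zᵀ * toC Q + toC Q * Z = 0) (eZ : ∀ x ∈ EC P, Z * x = x * Z) : InLD Q S P (Y * Z - Z * Y) where
  com := by
    intro T hT
    obtain ⟨a, ha⟩ := hY T hT
    obtain ⟨b, hb⟩ := hZ T hT
    have h1 : Y * T = T * Y + a • T := by rw [← ha]; abel
    have h2 : Z * T = T * Z + b • T := by rw [← hb]; abel
    have h3 : Y * Z * T = T * Y * Z + a • (T * Z) + b • (T * Y) + (b * a) • T := by
      rw [mul_assoc, h2, mul_add, mul_smul_comm, ← mul_assoc, h1, add_mul, smul_mul_assoc, smul_add, smul_smul]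
      abel
    have h4 : Z * Y * T = T * Z * Y + b • (T * Y) + a • (T * Z) + (b * a) • T := by
      rw [mul_assoc, h1, mul_add, mul_smul_comm, ← mul_assoc, h2, add_mul, smul_mul_assoc, smul_add, smul_smul,
        mul_comm a b]
      abel
    rw [sub_mul, mul_sub, h3, h4, ← mul_assoc, ← mul_assoc]
    abel
  skew := by
    have h1 : Yᵀ * toC Q = -(toC Q * Y) := eq_neg_of_add_eq_zero_left sY
    have h2 : Zᵀ * toC Q = -(toC Q * Z) := eq_neg_of_add_eq_zero_left sZ
    rw [Matrix.transpose_sub, Matrix.transpose_mul, Matrix.transpose_mul, sub_mul, mul_assoc, mul_assoc, h1, h2,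
      mul_neg, mul_neg, ← mul_assoc, ← mul_assoc, h1, h2, neg_mul, neg_mul, neg_neg, neg_neg, mul_sub, mul_assoc,
      mul_assoc]
    abel
  tr := by
    intro f hf
    rw [sub_mul, Matrix.trace_sub, Matrix.trace_mul_cycle Z Y f, mul_assoc f Z Y, ← mul_assoc f Z Y, ← eZ f hf,
      Matrix.trace_mul_comm (Z * f) Y, ← mul_assoc, sub_self]

/-- an idempotent of rank one -/
theorem corner_rank_one {e : Matrix n n ℂ} (hr : e.rank ≤ 1) (y : Matrix n n ℂ) : ∃ c : ℂ, e * y * e = c • e := by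
  by_cases he0 : e = 0
  · exact ⟨0, by rw [he0]; simp⟩
  have h1 : Module.finrank ℂ (LinearMap.range e.mulVecLin) ≤ 1 := hr
  obtain ⟨v, hv⟩ := finrank_le_one_iff.1 h1
  have h2 : ∀ x : n → ℂ, ∃ c : ℂ, e *ᵥ x = c • (v : n → ℂ) := by
    intro x
    obtain ⟨c, hc⟩ := hv ⟨e *ᵥ x, ⟨x, rfl⟩⟩
    refine ⟨c, ?_⟩
    have := congrArg Subtype.val hc
    exact this.symm
  obtain ⟨c, hc⟩ := h2 (y *ᵥ v)
  refine ⟨c, ?_⟩
  refine Matrix.ext_iff_mulVec.2 fun x => ?_
  obtain ⟨d, hd⟩ := h2 x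
  rw [← Matrix.mulVec_mulVec, ← Matrix.mulVec_mulVec, hd, Matrix.mulVec_smul, Matrix.mulVec_smul, hc,
    Matrix.smul_mulVec, hd, smul_comm]

/-- an element of an algebra of full type is in the derived algebra up to a scalar -/
theorem ty_scalar {k : Type*} [Fintype k] [DecidableEq k] {A : Submodule ℂ (Matrix k k ℂ)} (hA : TyF A)
    (h2 : 2 ≤ Fintype.card k) {x : Matrix k k ℂ} (hx : x ∈ A) : ∃ c : ℂ, x - c • (1 : Matrix k k ℂ) ∈ brk A := by
  have hk : ((Fintype.card k : ℕ) : ℂ) ≠ 0 := by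
    have : Fintype.card k ≠ 0 := by omega
    exact_mod_cast this
  obtain ⟨-, h | ⟨Q, -, -, h3, h4⟩⟩ := brk_ty hA h2
  · refine ⟨x.trace / Fintype.card k, (h _).2 ?_⟩
    rw [Matrix.trace_sub, Matrix.trace_smul, Matrix.trace_one, smul_eq_mul, div_mul_cancel₀ _ hk, sub_self]
  · obtain ⟨c, hc⟩ := h3 x hx
    refine ⟨c / 2, (h4 _).2 ?_⟩
    rw [Matrix.transpose_sub, Matrix.transpose_smul, Matrix.transpose_one, sub_mul, mul_sub, smul_mul_assoc, one_mul,
      mul_smul_comm, mul_one]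
    have e1 : xᵀ * Q - (c / 2) • Q + (Q * x - (c / 2) • Q) = (xᵀ * Q + Q * x) - c • Q := by
      have : c • Q = (c / 2) • Q + (c / 2) • Q := by rw [← add_smul, add_halves]
      rw [this]
      abel
    rw [e1, hc, sub_self]

theorem brk_trace {k : Type*} [Fintype k] [DecidableEq k] {A : Submodule ℂ (Matrix k k ℂ)} {x : Matrix k k ℂ}
    (hx : x ∈ brk A) : x.trace = 0 := by
  unfold brk at hx
  induction hx using Submodule.span_induction with
  | mem z hz =>
    obtain ⟨a, _, b, _, rfl⟩ := hz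
    rw [Matrix.trace_sub, Matrix.trace_mul_comm, sub_self]
  | zero => simp
  | add a b _ _ h1 h2 => rw [Matrix.trace_add, h1, h2, add_zero]
  | smul c a _ h1 => rw [Matrix.trace_smul, h1, smul_zero]

/-! ### the blocks -/

section blocks

variable (H : IsHW w Q S P) (hLD : ∀ X, InLD Q S P X → X ∈ LH Q S P) (hty : ∀ e, IsBlk P e → 2 ≤ e.rank → TyB Q S P e)
  (M : IsMon Q S P D) (hD : SemiD S P D) (hns : ∀ e, IsBlk P e → 2 ≤ e.rank → ∃ X ∈ LG (mapC D), ∀ c : ℂ, X * e ≠ c • e)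
include H hLD hty M hD hns

theorem IsMon.block {e : Matrix n n ℂ} (he : IsBlk P e) {y : Matrix n n ℂ} (hy : ∀ X ∈ LG (mapC D), X * y = y * X)
    (hyE : ∀ x ∈ EC P, y * x = x * y) : ∃ c : ℂ, y * e = c • e := by
  obtain ⟨B, Bi, Qi, h1, h2, -, -, hM⟩ := H.exists_basis
  have heye : e * y * e = y * e := by rw [← hyE e he.mem, mul_assoc, he.idem]
  by_cases hr : e.rank ≤ 1
  · obtain ⟨c, hc⟩ := corner_rank_one hr y
    exact ⟨c, by rw [← heye, hc]⟩
  have hr2 : 2 ≤ e.rank := by omega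
  obtain ⟨k, W, V, hVW, hWV, hT⟩ := hty e he hr2
  have hk : 2 ≤ Fintype.card (Fin k) := by
    have h3 : (W * V).rank ≤ W.rank := Matrix.rank_mul_le_left W V
    have h4 : W.rank ≤ Fintype.card (Fin k) := Matrix.rank_le_card_width W
    rw [hWV] at h3
    omega
  have heW : e * W = W := by rw [← hWV, Matrix.mul_assoc, hVW, Matrix.mul_one]
  have hVe : V * e = V := by rw [← hWV, ← Matrix.mul_assoc, hVW, Matrix.one_mul]
  have hmul : ∀ X Z : Matrix n n ℂ, Z * e = e * Z → (V * X * W) * (V * Z * W) = V * (X * Z) * W := by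
    intro X Z hZ
    calc (V * X * W) * (V * Z * W) = V * X * ((W * V) * Z) * W := by simp only [Matrix.mul_assoc]
      _ = V * X * (Z * e) * W := by rw [hWV, hZ]
      _ = V * (X * Z) * (e * W) := by simp only [Matrix.mul_assoc]
      _ = _ := by rw [heW]
  have hbr : ∀ X Z : Matrix n n ℂ, X * e = e * X → Z * e = e * Z →
      (V * X * W) * (V * Z * W) - (V * Z * W) * (V * X * W) = V * (X * Z - Z * X) * W := by
    intro X Z hX hZ
    rw [hmul X Z hZ, hmul Z X hX, Matrix.mul_sub, Matrix.sub_mul]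
  have cLH : ∀ Z ∈ LH Q S P, Z * e = e * Z := fun Z hZ => H.LH_EC hZ he.mem
  have cL1 : ∀ Z ∈ L1 (LH Q S P), Z * e = e * Z := by
    intro Z hZ
    obtain ⟨Z0, hZ0, c, rfl⟩ := mem_L1.1 hZ
    rw [add_mul, mul_add, cLH Z0 hZ0, smul_mul_assoc, mul_smul_comm, one_mul, mul_one]
  have cJ : ∀ X ∈ LG (mapC D), X * e = e * X := fun X hX => H.LG_EC h1 h2 hM hD hX he.mem
  have hbA : brk (cpL W V (L1 (LH Q S P))) ≤ cpL W V (L1 (LH Q S P)) := by
    unfold brk
    rw [Submodule.span_le]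
    rintro z ⟨x, ⟨X, hX, rfl⟩, x', ⟨X', hX', rfl⟩, rfl⟩
    obtain ⟨Z0, hZ0, c, rfl⟩ := mem_L1.1 hX
    obtain ⟨Z1, hZ1, c', rfl⟩ := mem_L1.1 hX'
    refine ⟨Z0 * Z1 - Z1 * Z0, le_L1 (LH_br hZ0 hZ1), ?_⟩
    rw [hbr _ _ (cL1 _ hX) (cL1 _ hX')]
    congr 2
    rw [add_mul, mul_add, add_mul, mul_add]
    simp only [smul_mul_assoc, mul_smul_comm, one_mul, mul_one, mul_add]
    rw [smul_comm c c']
    abel
  -- brackets of the algebra of the block with elements of J
  have hAJ : ∀ x ∈ cpL W V (L1 (LH Q S P)), ∀ X ∈ LG (mapC D), ∃ Z ∈ LH Q S P,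
      x * (V * X * W) - (V * X * W) * x = V * (Z * X - X * Z) * W := by
    rintro x ⟨X', hX', rfl⟩ X hX
    obtain ⟨Z, hZ, c, rfl⟩ := mem_L1.1 hX'
    refine ⟨Z, hZ, ?_⟩
    rw [hbr _ _ (cL1 _ hX') (cJ X hX)]
    congr 2
    rw [add_mul, mul_add, smul_mul_assoc, mul_smul_comm, one_mul, mul_one]
    abel
  have hid : ∀ Z ∈ LH Q S P, ∀ X ∈ LG (mapC D), Z * X - X * Z ∈ LG (mapC D) := fun Z hZ X hX =>
    H.ideal_of_sub (fun σ X hX => LG_aut σ hX) (fun z hz X hX => M.LG_cochar H hz hX) (fun X hX => M.LG_skew hX) hZ hX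
  -- a matrix commuting with the derived algebra of the block comes from an endomorphism
  have hcomm : ∀ T : Matrix n n ℂ, T * e = e * T →
      (∀ x ∈ brk (cpL W V (L1 (LH Q S P))), x * (V * T * W) = (V * T * W) * x) → ∃ c : ℂ, T * e = c • e := by
    intro T hTe hT'
    have h3 : ∀ Z ∈ LH Q S P, (T * e) * Z = Z * (T * e) := by
      intro Z hZ
      have h4 : V * Z * W ∈ cpL W V (L1 (LH Q S P)) := ⟨Z, le_L1 hZ, rfl⟩
      obtain ⟨c, hc⟩ := ty_scalar hT hk h4
      have h5 := hT' _ hc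
      rw [sub_mul, mul_sub, smul_mul_assoc, mul_smul_comm, one_mul, mul_one] at h5
      have h6 : (V * Z * W) * (V * T * W) = (V * T * W) * (V * Z * W) := by
        have h7 := congrArg (fun Y => Y + c • (V * T * W)) h5
        simpa only [sub_add_cancel] using h7
      rw [hmul Z T hTe, hmul T Z (cLH Z hZ)] at h6
      have h8 := congrArg (fun Y => W * Y * V) h6
      have h9 : ∀ Y : Matrix n n ℂ, W * (V * Y * W) * V = e * Y * e := by
        intro Y
        rw [← hWV]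
        simp only [Matrix.mul_assoc]
      simp only [h9] at h8
      calc (T * e) * Z = (e * T) * Z * 1 := by rw [hTe, mul_one]
        _ = e * T * Z := by rw [mul_one]
        _ = e * (T * Z) * e := by
          rw [mul_assoc e T Z, mul_assoc e (T * Z) e, mul_assoc T Z e, cLH Z hZ, ← mul_assoc T e Z, hTe,
            mul_assoc e T Z, ← mul_assoc e e, he.idem]
        _ = e * (Z * T) * e := h8.symm
        _ = Z * (T * e) := by
          rw [← mul_assoc e Z T, ← cLH Z hZ, mul_assoc Z e T, ← hTe, mul_assoc Z (T * e) e, mul_assoc T e e, he.idem]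
    have h4 := H.EC_of_LH h3
    obtain ⟨c, hc⟩ := he.min _ h4
    refine ⟨c, ?_⟩
    rw [← hc, hTe, ← mul_assoc, he.idem, mul_assoc, ← hTe, ← mul_assoc, ← hTe, mul_assoc, he.idem]
  -- the ideal
  have hN := simple_ty hT hk (N := brk (cpL W V (L1 (LH Q S P))) ⊓ cpL W V (LG (mapC D))) inf_le_left ?_ ?_
  · have hb : brk (cpL W V (L1 (LH Q S P))) ≤ cpL W V (LG (mapC D)) := by
      rw [← hN]
      exact inf_le_right
    refine hcomm y (hyE e he.mem) ?_
    intro x hx
    obtain ⟨X, hX, rfl⟩ := hb hx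
    rw [hmul X y (hyE e he.mem), hmul y X (cJ X hX), hy X hX]
  · rintro x hx z ⟨hz1, X, hX, rfl⟩
    refine ⟨Submodule.subset_span ⟨x, hbA hx, _, hbA hz1, rfl⟩, ?_⟩
    obtain ⟨Z, hZ, h5⟩ := hAJ x (hbA hx) X hX
    rw [h5]
    exact ⟨_, hid Z hZ X hX, rfl⟩
  · intro hN0
    obtain ⟨X, hX, hXe⟩ := hns e he hr2
    obtain ⟨c, hc⟩ := hcomm X (cJ X hX) (by
      intro x hx
      obtain ⟨Z, hZ, h5⟩ := hAJ x (hbA hx) X hX
      have h6 : x * (V * X * W) - (V * X * W) * x ∈
          brk (cpL W V (L1 (LH Q S P))) ⊓ cpL W V (LG (mapC D)) := by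
        constructor
        · have h7 : V * (Z * X - X * Z) * W ∈ cpL W V (L1 (LH Q S P)) := by
            refine ⟨_, le_L1 (hLD _ ?_), rfl⟩
            exact InLD.of_bracket (fun T hT => H.SI_iff_LH.1 hT Z hZ) (fun T hT => H.LG_semi h1 h2 hM hD hX hT)
              hZ.1 (M.LG_skew hX) (fun x hx => H.LG_EC h1 h2 hM hD hX hx)
          obtain ⟨c, hc⟩ := ty_scalar hT hk h7
          have h8 : (V * (Z * X - X * Z) * W).trace = 0 := by
            rw [← h5, Matrix.trace_sub, Matrix.trace_mul_comm, sub_self]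
          have h9 := brk_trace hc
          rw [Matrix.trace_sub, h8, Matrix.trace_smul, Matrix.trace_one, zero_sub, neg_eq_zero, smul_eq_mul] at h9
          have h10 : c = 0 := by
            rcases mul_eq_zero.1 h9 with h | h
            · exact h
            · exfalso
              have : Fintype.card (Fin k) = 0 := by exact_mod_cast h
              omega
          rw [h10, zero_smul, sub_zero] at hc
          rw [h5]
          exact hc
        · rw [h5]
          exact ⟨_, hid Z hZ X hX, rfl⟩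
      rw [hN0, Submodule.mem_bot, sub_eq_zero] at h6
      exact h6)
    exact hXe c hc

/-- **MON-W.** A monodromy group whose Lie algebra is not scalar on the blocks contains the derived group of the
Mumford-Tate group. -/
theorem IsMon.contains (hdec : ∃ (ι : Type) (_ : Fintype ι) (e : ι → Matrix n n ℂ), (∀ i, IsBlk P (e i)) ∧ ∑ i, e i = 1)
    {Y : Matrix n n ℂ} (hY : InLD Q S P Y) : Y ∈ LG (mapC D) := by
  obtain ⟨B, Bi, Qi, h1, h2, -, -, hM⟩ := H.exists_basis
  have m1 : ∀ σ : ℂ ≃+* ℂ, ∀ X ∈ LG (mapC D), X.map σ ∈ LG (mapC D) := fun σ X hX => LG_aut σ hX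
  have m2 : ∀ z : ℂ, z ≠ 0 → ∀ X ∈ LG (mapC D), cochar S P z * X * cochar S P z⁻¹ ∈ LG (mapC D) :=
    fun z hz X hX => M.LG_cochar H hz hX
  have m3 : ∀ X ∈ LG (mapC D), Xᵀ * toC Q + toC Q * X = 0 := fun X hX => M.LG_skew hX
  have hc := H.compl_sub h1 h2 hM m1 m2 m3
  obtain ⟨Y1, Y2, hY12, -⟩ := Submodule.existsUnique_add_of_isCompl hc Y
  have hY1 := Y1.2
  have hY2 := Y2.2
  generalize (Y1 : Matrix n n ℂ) = Z1 at hY1 hY12
  generalize (Y2 : Matrix n n ℂ) = Z2 at hY2 hY12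
  have hYL : Y ∈ LH Q S P := hLD Y hY
  -- the second component commutes with J
  have hcom : ∀ X ∈ LG (mapC D), X * Z2 = Z2 * X := by
    intro X hX
    have e1 : X * Z2 - Z2 * X ∈ LG (mapC D) := by
      have e2 : X * Z2 - Z2 * X = -(Y * X - X * Y) - (X * Z1 - Z1 * X) := by
        rw [← hY12]
        noncomm_ring
      rw [e2]
      exact Submodule.sub_mem _ (Submodule.neg_mem _ (H.ideal_of_sub m1 m2 m3 hYL hX)) (LG_br hX hY1)
    have e2 : X * Z2 - Z2 * X ∈ (tr38 n).orthogonal (LG (mapC D)) := by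
      intro Z hZ
      have e3 := tr38_skew X Z Z2
      have e4 : tr38 n (ad38 X Z) Z2 = 0 := hY2 _ (LG_br hX hZ)
      rw [e4] at e3
      exact neg_eq_zero.1 e3.symm
    have e3 := (Submodule.disjoint_def.1 hc.disjoint) _ e1 e2
    exact sub_eq_zero.1 e3
  have hZE : ∀ x ∈ EC P, Z2 * x = x * Z2 := by
    intro x hx
    have e1 := hY.com x (H.SI_EC hx)
    have e2 := H.LG_EC h1 h2 hM hD hY1 hx
    rw [← hY12, add_mul, mul_add, e2] at e1
    exact add_left_cancel e1
  -- it is an endomorphism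
  obtain ⟨ι, _, e, he, hsum⟩ := hdec
  choose c hc2 using fun i => IsMon.block H hLD hty M hD hns (he i) hcom hZE
  have hZ2 : Z2 = ∑ i, c i • e i := by
    calc Z2 = Z2 * ∑ i, e i := by rw [hsum, mul_one]
      _ = _ := by rw [Finset.mul_sum]; exact Finset.sum_congr rfl fun i _ => hc2 i
  have hZEC : Z2 ∈ EC P := by
    rw [hZ2]
    exact Submodule.sum_mem _ fun i _ => Submodule.smul_mem _ _ (he i).mem
  -- it is zero
  have e1 : (Z2 * dg w Q S P Bi Z2).trace = 0 := by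
    have e2 : (Y * dg w Q S P Bi Z2).trace = 0 := hY.tr _ (H.EC_dg h1 h2 hM hZEC)
    have e3 : (Z1 * dg w Q S P Bi Z2).trace = 0 := by
      have e4 : tr38 n (dg w Q S P Bi Z1) Z2 = 0 := hY2 _ (H.dg_sub_mem h1 h2 hM m1 m2 m3 hY1)
      have e5 : Z1 * dg w Q S P Bi Z2 = dg w Q S P Bi (Z2 * dg w Q S P Bi Z1) := by
        rw [dg_mul h1 h2 hM, dg_dg h1 h2 hM]
      rw [e5, dg_trace h1 h2 hM, Matrix.trace_mul_comm, ← tr38_apply, e4, map_zero]
    rw [← hY12, add_mul, Matrix.trace_add, e3, zero_add] at e2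
    exact e2
  have e2 : Z2 = 0 := by
    by_contra h
    exact dg_pos h1 h2 hM h e1
  rw [← hY12, e2, add_zero]
  exact hY1

end blocks

end MH
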